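import Pool.Agent.R882.HT

/-!
# Surfaces of geometric genus zero: images of towers of nondegenerate complete intersections

A tower (`Tower`, `Pool/Agent/R882/HT.lean`) is a sequence of generically finite maps
`V 0 ⇢ V 1 ⇢ ... ⇢ V k` of varieties of dimension `2`, where `V k` is any unirational variety and
each `V i`, `i < k`, is a component of the set of common zeros in a torus `(ℂ^*) ^ (2 + q)` of a
system `f` of Laurent polynomials which is nondegenerate in the sense of Khovanskii, with arbitrary
Newton polytopes, and `V (i + 1)` is birational to the image of `V i` under monomials
`t l = x ^ (w l)`, where `ℂ(V i) = ℂ(V (i + 1))(y)` for a monomial `y = x ^ v`. (Typical towers are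
given by triangular systems `f 1 (t, y 1) = 0`, `f 2 (t, y 1, y 2) = 0`, ...,
`f k (t, y 1, ..., y k) = 0`; then `V k` is the torus.) Let `b i` be the degree of `V i` over
`V (i + 1)`. It is assumed that there are columns for `s i = s / (b 0 ⋯ b (i - 1))` in the Fine
interior of the Newton polytopes of `V i`: for each divisor `c < b i` of `b i` an `M` with
`s i ≤ c (M + 1)` such that the `u + j v` and the `u + j v + M w l` are in the Fine interior for all
`j < c`. (If `b i` is a prime number: `u` and the `u + (s i - 1) w l` are in the Fine interior.)

Let `V 0 ⇢ X` be any dominant rational map of degree `r`, where there are columns for `s = r`;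
nothing is assumed about the map (it need not be a quotient by a group and has no relation to the
tower) or about `X`. The theorem: if the geometric genus `p_g(S)` of the smooth
projective models `S` of `X` is zero then `X` is unirational, hence `S` is rational. If `D` is an effective
divisor on `S` with `H²(S, I_D) = 0` then `p_g(S) = 0`, so `S` is rational, Bloch's conjecture holds for
`S`, and `CH_0(S|D)` is finite dimensional (known steps, not formalised here). There are many surfaces of general
type among the images `X` of towers; the theorem excludes that they have `p_g = 0`.

Proof: if `X` has geometric genus zero and `V i ⇢ X` is a rational map then it factors through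
`V i ⇢ V (i + 1)`, because the traces to `X` of the forms `A(t) x ^ u y ^ j Res`, where `Res` is the
residue form on `V i` and `A` has degree at most `M`, are
zero. So
`X` is dominated by `V k`, and it is unirational.

`K` and `L` are the function fields of `V 0` and `X`. `GenusZero L 2`: the only canonical form which is
regular at all prime divisors of all models is `0` (`Pool/Agent/R882/HT.lean`). `IsUnirational ℂ L 2`:
`L` embeds in the field of rational functions in two variables (`Pool/Agent/W619/TW`).
-/

set_option autoImplicit false
set_option linter.overlappingInstances false

open FF Module Pool.Agent.W602.GT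
open Pool.Agent.W619.TW (IsUnirational)
open Pool.Agent.R882.HT (GenusZero Tower)

namespace Pool.Agent.Results.MP_e6ecf5_ag.TowersGenusZero

/-- **Images of geometric genus zero.** Let `K` be the function field of the first variety `V` of a tower of
varieties of dimension `2` over a unirational variety, with columns for `r`, and let `V ⇢ X` be
a dominant rational map of degree `r`, `L` the function field of `X`. If `p_g(X) = 0` then
`X` is unirational. -/
theorem result {K : Type} [Field K] [Algebra ℂ K]
    (hK : Algebra.trdeg ℂ K = 2)
    (L : Type) [Field L] [Algebra ℂ L] [Algebra L K] [IsScalarTower ℂ L K]
    [FiniteDimensional L K]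
    (h : Tower 2 (fun E _ _ => IsUnirational ℂ E 2) K (Module.finrank L K)) :
    GenusZero L 2 → IsUnirational ℂ L 2 :=
  (Pool.Agent.R882.HT.tower_aux one_le_two (Pool.Agent.R882.HT.descends_unirational 2) h
    (by rw [hK]; rfl) L).1 rfl

end Pool.Agent.Results.MP_e6ecf5_ag.TowersGenusZero
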